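import Pool.Agent.helper23.CS.Spec

/-!
Project cs: row GEX, existence of Gibbs measures as ultrafilter limits of finite volume measures.
-/

open Finset Filter Topology MeasureTheory

namespace CS

open CU

theorem GEX_box {d : ℕ} (Λ : Finset (ZSite d)) : ∀ᶠ L : ℕ in atTop, Λ ⊆ zBox L (0 : ZSite d) := by
  have h1 : ∀ᶠ L : ℕ in atTop, ∀ x ∈ Λ, x ∈ zBox L (0 : ZSite d) := by
    rw [Finset.eventually_all]
    intro x _
    have h2 : ∀ᶠ L : ℕ in atTop, ∀ k : Fin d, (x k).natAbs ≤ L := by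
      rw [Filter.eventually_all]
      intro k
      exact eventually_ge_atTop _
    filter_upwards [h2] with L hL
    unfold zBox
    rw [Fintype.mem_piFinset]
    intro k
    have h3 := hL k
    rw [Finset.mem_Icc, Pi.zero_apply]
    constructor
    · omega
    · omega
  filter_upwards [h1] with L hL x hx
  exact hL x hx

theorem GEX (hGM : GM_stmt) (hGCT : GCT_stmt) (hGDL : GDL_stmt) (hVB : CU.VB_stmt) : GEX_stmt := by
  intro d β ω
  choose P hP using fun L : ℕ => hGM d β (zBox L (0 : ZSite d)) ω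
  obtain ⟨U, hU⟩ : ∃ U : Ultrafilter ℕ, (U : Filter ℕ) ≤ atTop :=
    ⟨Ultrafilter.of atTop, Ultrafilter.of_le atTop⟩
  obtain ⟨μ, hμ⟩ : ∃ μ : ProbabilityMeasure (ZConf d), Tendsto P U (𝓝 μ) :=
    ⟨(U.map P).lim, (U.map P).le_nhds_lim⟩
  have key : ∀ f : ZConf d → ℝ, Continuous f →
      Tendsto (fun L : ℕ => gam β 0 (zBox L (0 : ZSite d)) f ω) U
        (𝓝 (∫ σ, f σ ∂(μ : Measure (ZConf d)))) := by
    intro f hf
    have h1 := ProbabilityMeasure.tendsto_iff_forall_integral_tendsto.1 hμ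
      (BoundedContinuousFunction.mkOfCompact ⟨f, hf⟩)
    refine h1.congr (fun L => ?_)
    exact hP L f hf
  refine ⟨(μ : Measure (ZConf d)), U, hU, ?_, fun x => key _ ((hGCT d β ∅).2 x)⟩
  apply hGDL d β _ inferInstance
  intro Λ f hf
  have h1 := key (fun ω' => gam β 0 Λ f ω') ((hGCT d β Λ).1 f hf)
  have h2 := key f hf
  refine tendsto_nhds_unique (h1.congr' ?_) h2
  filter_upwards [hU (GEX_box Λ)] with L hL
  exact hVB d β Λ _ hL f ω

end CS
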